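import Mathlib
import Pool.Agent.Y906.UP.Main

/-!
# One two-class partition of the positive integers that serves every threshold function

The question asks, for each function `f` tending to infinity, for a partition into two classes
(which may depend on `f`) such that the monochromatic products whose two factors exceed `f` have
lower density zero. Here ONE partition and ONE sequence of scales are built that work for all
functions `f` at the same time, and even with a constant threshold `y` the upper limit of the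
proportions along the scales tends to `0` as `y` grows.

The classes are defined by reflection: with `N i` growing very fast and `M i = N i ^ 2`, the numbers
of the block `(M (i - 1), M i]` that are at most `N i` are in the first class, and a number `a` of
the block above `N i` is put in the class opposite to that of `M i / a` (rounded down), so that a
product close to `M i` with one large factor is almost never monochromatic.
-/

set_option autoImplicit false

namespace Pool.Agent.Results.MP_c34da8_nt.UniversalPartition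

open Filter Topology

/-- The set `D_f(P)` of the problem for the partition `P = {A₁, A₂}`: the positive integers `n`
that can be written `n = a * a'` with `a`, `a'` in a common class and `min a a' > f n`. -/
def largeProducts (f : ℕ → ℝ) (A₁ A₂ : Set ℕ) : Set ℕ :=
  {n | 1 ≤ n ∧ ∃ a a' : ℕ, n = a * a' ∧ ((a ∈ A₁ ∧ a' ∈ A₁) ∨ (a ∈ A₂ ∧ a' ∈ A₂)) ∧
    f n < ((min a a' : ℕ) : ℝ)}

/-- The proportion of the elements of `largeProducts f A₁ A₂` among `1, ..., M`. -/
noncomputable def ratio (f : ℕ → ℝ) (A₁ A₂ : Set ℕ) (M : ℕ) : ℝ :=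
  ((largeProducts f A₁ A₂ ∩ Set.Icc 1 M).ncard : ℝ) / (M : ℝ)

lemma ratio_nonneg (f : ℕ → ℝ) (A₁ A₂ : Set ℕ) (M : ℕ) : 0 ≤ ratio f A₁ A₂ M := by
  unfold ratio
  positivity

lemma ratio_le_one (f : ℕ → ℝ) (A₁ A₂ : Set ℕ) (M : ℕ) : ratio f A₁ A₂ M ≤ 1 := by
  unfold ratio
  apply div_le_one_of_le₀ _ (by positivity)
  have h1 : (largeProducts f A₁ A₂ ∩ Set.Icc 1 M).ncard ≤ (Set.Icc 1 M).ncard :=
    Set.ncard_le_ncard Set.inter_subset_right (Set.finite_Icc 1 M)
  have h2 : (Set.Icc 1 M : Set ℕ).ncard = M := by
    rw [← Finset.coe_Icc, Set.ncard_coe_finset, Nat.card_Icc]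
    omega
  rw [h2] at h1
  exact_mod_cast h1

/-- A nonnegative quantity that is at most one and tends to zero along a sequence going to
infinity has lower limit zero. -/
lemma liminf_zero (u : ℕ → ℝ) (h0 : ∀ m, 0 ≤ u m) (h1 : ∀ m, u m ≤ 1) (M : ℕ → ℕ)
    (hM : StrictMono M) (hu : Tendsto (fun j => u (M j)) atTop (𝓝 0)) : liminf u atTop = 0 := by
  have hbddB : IsBoundedUnder (· ≥ ·) atTop u := isBoundedUnder_of ⟨0, h0⟩
  have hcobdd : IsCoboundedUnder (· ≥ ·) atTop u :=
    (isBoundedUnder_of ⟨1, h1⟩ : IsBoundedUnder (· ≤ ·) atTop u).isCoboundedUnder_ge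
  apply le_antisymm
  · apply le_of_forall_pos_le_add
    intro ε hε
    rw [zero_add]
    apply liminf_le_of_frequently_le _ hbddB
    rw [frequently_atTop]
    intro m₀
    obtain ⟨j, hj1, hj2⟩ := ((hu.eventually (gt_mem_nhds hε)).and (eventually_ge_atTop m₀)).exists
    exact ⟨M j, hj2.trans (hM.le_apply), hj1.le⟩
  · exact le_liminf_of_le hcobdd (Eventually.of_forall h0)

/-- A threshold above `y` beyond `n₀`: the large products are bad integers, apart from `n₀`. -/
lemma card_le (D : Pool.Agent.Y906.UP.Scales) (f : ℕ → ℝ) (y n₀ M B : ℕ)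
    (hf : ∀ n, n₀ ≤ n → (y : ℝ) ≤ f n)
    (hB : (by classical exact (((Finset.Ioc 0 M).filter (fun n => D.Bad y n)).card : ℕ)) ≤ B) :
    (largeProducts f (D.cls false) (D.cls true) ∩ Set.Icc 1 M).ncard ≤ n₀ + B := by
  classical
  have hsub : largeProducts f (D.cls false) (D.cls true) ∩ Set.Icc 1 M ⊆
      ((Finset.range n₀ ∪ (Finset.Ioc 0 M).filter (fun n => D.Bad y n) : Finset ℕ) : Set ℕ) := by
    rintro n ⟨⟨hn1, a, a', hnaa, hcls, hmin⟩, hnM⟩
    rw [Set.mem_Icc] at hnM
    rw [Finset.mem_coe, Finset.mem_union]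
    by_cases hn : n < n₀
    · left; exact Finset.mem_range.2 hn
    · right
      push Not at hn
      rw [Finset.mem_filter, Finset.mem_Ioc]
      refine ⟨⟨hn1, hnM.2⟩, a, a', hnaa, ?_, ?_⟩
      · rcases hcls with ⟨h1, h2⟩ | ⟨h1, h2⟩
        · rw [h1.2, h2.2]
        · rw [h1.2, h2.2]
      · have h1 : (y : ℝ) < ((min a a' : ℕ) : ℝ) := lt_of_le_of_lt (hf n hn) hmin
        have h2 : y < min a a' := by exact_mod_cast h1
        exact lt_min_iff.1 h2
  calc (largeProducts f (D.cls false) (D.cls true) ∩ Set.Icc 1 M).ncard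
      ≤ (((Finset.range n₀ ∪ (Finset.Ioc 0 M).filter (fun n => D.Bad y n) : Finset ℕ) :
          Set ℕ)).ncard := Set.ncard_le_ncard hsub (Finset.finite_toSet _)
    _ = (Finset.range n₀ ∪ (Finset.Ioc 0 M).filter (fun n => D.Bad y n)).card :=
        Set.ncard_coe_finset _
    _ ≤ (Finset.range n₀).card + ((Finset.Ioc 0 M).filter (fun n => D.Bad y n)).card :=
        Finset.card_union_le _ _
    _ ≤ n₀ + B := by
        rw [Finset.card_range]
        refine Nat.add_le_add_left ?_ _
        convert hB

/-- There are ONE partition of the positive integers into two classes and ONE strictly increasing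
sequence `M` such that

* for every `ε > 0` there is a constant threshold `y` for which the monochromatic products with
  both factors larger than `y` have proportion at most `ε` in `1, ..., M j` for all large `j`;
* for EVERY function `f` tending to infinity the proportion of the elements of `D_f` in
  `1, ..., M j` tends to zero as `j` tends to infinity, so `D_f` has lower density zero. -/
theorem result :
    ∃ A₁ A₂ : Set ℕ, A₁.Nonempty ∧ A₂.Nonempty ∧ Disjoint A₁ A₂ ∧ A₁ ∪ A₂ = {n : ℕ | 1 ≤ n} ∧
      ∃ M : ℕ → ℕ, StrictMono M ∧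
        (∀ ε : ℝ, 0 < ε → ∃ y : ℕ, ∀ᶠ j : ℕ in atTop,
          ratio (fun _ => (y : ℝ)) A₁ A₂ (M j) ≤ ε) ∧
        ∀ f : ℕ → ℝ, Tendsto f atTop atTop →
          Tendsto (fun j : ℕ => ratio f A₁ A₂ (M j)) atTop (𝓝 0) ∧
          liminf (fun m : ℕ => ratio f A₁ A₂ m) atTop = 0 := by
  classical
  obtain ⟨D⟩ := Pool.Agent.Y906.UP.exists_scales
  refine ⟨D.cls false, D.cls true, D.cls_false_nonempty, D.cls_true_nonempty, D.cls_disjoint,
    D.cls_union, D.M, D.M_strict, ?_, ?_⟩
  · intro ε hε
    obtain ⟨y, J, hJ⟩ := D.uniform ε hε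
    refine ⟨y, ?_⟩
    filter_upwards [eventually_ge_atTop J] with j hj
    have hMj : (0 : ℝ) < D.M j := by
      have := D.N_lt_M j
      exact_mod_cast (by omega : 0 < D.M j)
    unfold ratio
    rw [div_le_iff₀ hMj]
    have h1 := card_le D (fun _ => (y : ℝ)) y 0 (D.M j) _ (fun n _ => le_rfl) le_rfl
    rw [zero_add] at h1
    refine le_trans ?_ (hJ j hj)
    refine le_trans (Nat.cast_le.2 h1) (le_of_eq ?_)
    congr!
  · intro f hf
    have hlim : Tendsto (fun j : ℕ => ratio f (D.cls false) (D.cls true) (D.M j)) atTop (𝓝 0) := by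
      rw [Metric.tendsto_atTop]
      intro ε hε
      obtain ⟨y, J, hJ⟩ := D.uniform (ε / 3) (by positivity)
      obtain ⟨n₀, hn₀⟩ := (tendsto_atTop_atTop.1 hf) (y : ℝ)
      obtain ⟨J', hJ'⟩ := exists_nat_gt (n₀ / (ε / 3))
      refine ⟨max J J', fun j hj => ?_⟩
      have hj1 : J ≤ j := (le_max_left _ _).trans hj
      have hj2 : J' ≤ j := (le_max_right _ _).trans hj
      have hMj : (0 : ℝ) < D.M j := by
        have := D.N_lt_M j
        exact_mod_cast (by omega : 0 < D.M j)
      rw [Real.dist_eq, sub_zero, abs_of_nonneg (ratio_nonneg _ _ _ _)]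
      have h1 := card_le D f y n₀ (D.M j) _ hn₀ le_rfl
      have h2 : (((Finset.Ioc 0 (D.M j)).filter (fun n => D.Bad y n)).card : ℝ) ≤
          ε / 3 * D.M j := by
        refine le_trans (le_of_eq ?_) (hJ j hj1)
        congr!
      have h3 : (n₀ : ℝ) ≤ ε / 3 * D.M j := by
        have h4 : (J' : ℝ) ≤ D.M j := by
          have : J' ≤ D.M j := hj2.trans (D.M_strict.le_apply)
          exact_mod_cast this
        rw [div_lt_iff₀ (by positivity)] at hJ'
        nlinarith
      have h5 : ((largeProducts f (D.cls false) (D.cls true) ∩ Set.Icc 1 (D.M j)).ncard : ℝ) ≤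
          (n₀ : ℝ) + (((Finset.Ioc 0 (D.M j)).filter (fun n => D.Bad y n)).card : ℝ) := by
        have h6 := h1
        have h7 : (largeProducts f (D.cls false) (D.cls true) ∩ Set.Icc 1 (D.M j)).ncard ≤
          n₀ + ((Finset.Ioc 0 (D.M j)).filter (fun n => D.Bad y n)).card := by
          convert h6
        exact_mod_cast h7
      unfold ratio
      rw [div_lt_iff₀ hMj]
      nlinarith
    exact ⟨hlim, liminf_zero _ (ratio_nonneg _ _ _) (ratio_le_one _ _ _) D.M D.M_strict hlim⟩

end Pool.Agent.Results.MP_c34da8_nt.UniversalPartition
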